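import Pool.Agent.Helper82.MonsterProof

open MeasureTheory ProbabilityTheory Pool.Agent.Helper82.Monster

universe u

/-- **Hereditary super-rigidity of the random monster group with respect to all countable
groups.** -/
theorem Pool.Agent.Results.MP_b8022a_al.HereditarySuperRigidity.result
    (d k j : ℕ) (hd : 3 ≤ d) (hk : 2 ≤ k) (hj : 1 ≤ j)
    (V : ℕ → Type) [∀ n, Fintype (V n)]
    (Ω : ∀ n, SimpleGraph (V n)) [∀ n, (Ω n).LocallyFinite]
    (hconn : ∀ n, (Ω n).Connected) (hreg : ∀ n, (Ω n).IsRegularOfDegree d)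
    (o : ∀ n, Orientation (Ω n))
    {ι : Type} [Countable ι] (G : ι → Type u) [∀ i, Group (G i)] [∀ i, Countable (G i)] :
    ∀ᵐ α ∂labellingMeasure Ω k j, ∀ i : ι, HereditarilyRigid (RandomMonster Ω o α) (G i) :=
  main d k j hd hk hj V Ω hconn hreg o G
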